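import Pool.Agent.H33R3.Bom.Stmts2
import Pool.Agent.H133R3.Bom.I2

/-! Project H33-BOM part 2, TaskN2: rotation and conclusion. -/

set_option autoImplicit false

namespace Pool.Agent.H719R4.Bom2

open Complex Metric Set Filter Topology Pool.Agent.H33R3.Bom Pool.Agent.H133R3.Bom

lemma final_ineq2 (b : ℂ) (n : ℕ) (hn : 2 ≤ n) (E : ℝ) (hE : 0 ≤ E)
    (h1 : |((n : ℂ) - b).re| ≤ 10 ^ 5 * (n : ℝ) ^ 3 * E)
    (h2 : b.im ^ 2 ≤ 10 ^ 4 * (n : ℝ) ^ 5 * E) :
    |(n : ℝ) - ‖b‖| ≤ 10 ^ 6 * (n : ℝ) ^ 4 * E := by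
  have hn1 : (1 : ℝ) ≤ n := by
    have : 1 ≤ n := by omega
    exact_mod_cast this
  have hn0 : (0 : ℝ) < n := by linarith
  have h3 : ((n : ℂ) - b).re = n - b.re := by simp
  rw [h3] at h1
  have hre : b.re ≤ ‖b‖ := Complex.re_le_norm b
  have hab := abs_le.1 h1
  have hpow : (n : ℝ) ^ 3 ≤ (n : ℝ) ^ 4 := pow_le_pow_right₀ hn1 (by norm_num)
  have hp9 : 0 < (n : ℝ) ^ 4 := by positivity
  have e1 : 10 ^ 5 * (n : ℝ) ^ 3 * E ≤ 10 ^ 5 * (n : ℝ) ^ 4 * E := by gcongr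
  have e2 : 0 ≤ (n : ℝ) ^ 4 * E := by positivity
  rw [abs_le]
  constructor
  · by_cases hle : ‖b‖ ≤ n
    · have : 0 ≤ 10 ^ 6 * (n : ℝ) ^ 4 * E := by positivity
      linarith
    · push Not at hle
      have hsq : ‖b‖ ^ 2 = b.re ^ 2 + b.im ^ 2 := by
        rw [← Complex.normSq_eq_norm_sq, Complex.normSq_apply]
        ring
      have h5 : (‖b‖ - n) * (‖b‖ + n) = (b.re - n) * (b.re + n) + b.im ^ 2 := by
        nlinarith
      have h6 : (b.re - n) * (b.re + n) ≤ 10 ^ 5 * (n : ℝ) ^ 4 * E * (‖b‖ + n) := by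
        have h7 : |b.re - n| ≤ 10 ^ 5 * (n : ℝ) ^ 4 * E := by
          rw [abs_sub_comm]
          exact h1.trans e1
        have h8 : |b.re + n| ≤ ‖b‖ + n := by
          have h9 := Complex.abs_re_le_norm b
          calc |b.re + n| ≤ |b.re| + |(n : ℝ)| := abs_add_le _ _
            _ ≤ ‖b‖ + n := by rw [abs_of_pos hn0]; linarith
        calc (b.re - n) * (b.re + n) ≤ |(b.re - n) * (b.re + n)| := le_abs_self _
          _ = |b.re - n| * |b.re + n| := abs_mul _ _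
          _ ≤ 10 ^ 5 * (n : ℝ) ^ 4 * E * (‖b‖ + n) :=
            mul_le_mul h7 h8 (abs_nonneg _) (by positivity)
      have h10 : b.im ^ 2 ≤ 10 ^ 4 * (n : ℝ) ^ 4 * E * (‖b‖ + n) := by
        calc b.im ^ 2 ≤ 10 ^ 4 * (n : ℝ) ^ 5 * E := h2
          _ = 10 ^ 4 * (n : ℝ) ^ 4 * E * n := by ring
          _ ≤ 10 ^ 4 * (n : ℝ) ^ 4 * E * (‖b‖ + n) := by
              gcongr
              have := norm_nonneg b
              linarith
      have hpos : 0 < ‖b‖ + n := by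
        have := norm_nonneg b
        linarith
      have h11 : (‖b‖ - n) * (‖b‖ + n) ≤ 10 ^ 6 * (n : ℝ) ^ 4 * E * (‖b‖ + n) := by
        rw [h5]
        have h12 : 0 ≤ (n : ℝ) ^ 4 * E * (‖b‖ + n) := by positivity
        nlinarith
      have h13 := le_of_mul_le_mul_right h11 hpos
      linarith
  · have h5 : (n : ℝ) - b.re ≤ 10 ^ 5 * (n : ℝ) ^ 3 * E := hab.2
    nlinarith

/-- Task N2 -/
theorem taskN2 : TaskN2 := by
  intro hA hB hC f hf n hn
  constructor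
  · obtain ⟨Y, hY, hfY, hep⟩ := hA f hf
    have h1 := (hC f Y hf hY hfY n hn).1
    rw [hep] at h1
    simpa using h1
  · obtain ⟨w, hw1, hw2⟩ := exists_rot (coeff 2 f)
    have hw0 : w ≠ 0 := by
      intro h
      rw [h] at hw1
      simp at hw1
    have hg := rot_inS hf hw1
    obtain ⟨Y, hY, hfY, hep⟩ := hA _ hg
    have h1 := hC _ Y hg hY hfY n hn
    have hε := hB Y hY
    have h2 : coeff 2 (fun z => w⁻¹ * f (w * z)) = ‖coeff 2 f‖ := by
      rw [coeff_rot w hw0 f 1, pow_one, hw2]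
    rw [h2] at hep
    simp only [Complex.ofReal_re] at hep
    have hlog : 0 ≤ 1 + Real.log n := by
      have : 0 ≤ Real.log n := Real.log_natCast_nonneg n
      linarith
    obtain ⟨m, rfl⟩ : ∃ m, n = m + 1 := ⟨n - 1, by omega⟩
    obtain ⟨h1a, h1b⟩ := h1
    rw [mul_assoc] at h1a h1b
    have h3 := final_ineq2 _ (m + 1) hn ((1 + Real.log ((m + 1 : ℕ) : ℝ)) * ep Y)
      (mul_nonneg hlog hε) h1a h1b
    rw [coeff_rot w hw0 f m, norm_mul, norm_pow, hw1, one_pow, one_mul, hep, ← mul_assoc] at h3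
    exact h3

end Pool.Agent.H719R4.Bom2
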